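import Mathlib

set_option autoImplicit false

/-!
Two-colourings of cubic graphs: flipping vertices with at least two neighbours of their own colour.
-/

namespace Pool.Agent.IVT

open Finset

variable {V : Type} [Fintype V] [DecidableEq V] (G : SimpleGraph V) [DecidableRel G.Adj]

/-- The neighbours of `v` that have the same colour as `v`. -/
def bad (c : V → Bool) (v : V) : Finset V := (G.neighborFinset v).filter (fun w => c w = c v)

/-- Flip the colour of `v`. -/
def flip (c : V → Bool) (v : V) : V → Bool := fun w => if w = v then !c w else c w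

/-- Every vertex has at most one neighbour of its own colour. -/
def Valid (c : V → Bool) : Prop := ∀ v, (bad G c v).card ≤ 1

/-- The sum of the signs, colour `s` counted as `1`, the other colour as `-1`. -/
def sgn (s : Bool) (c : V → Bool) : ℤ := ∑ v : V, (if c v = s then 1 else -1)

/-- The flippable vertices of colour `s`. -/
def Fl (s : Bool) (c : V → Bool) : Finset V :=
  Finset.univ.filter (fun v => 2 ≤ (bad G c v).card ∧ c v = s)

/-- `g` is reached from `c` by flipping vertices with at least two neighbours of their colour. -/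
inductive Reach : (V → Bool) → (V → Bool) → Prop
  | refl (c : V → Bool) : Reach c c
  | step (c : V → Bool) (v : V) (g : V → Bool) :
      2 ≤ (bad G c v).card → Reach (flip c v) g → Reach c g

omit [Fintype V] in
theorem flip_same (c : V → Bool) (v : V) : flip c v v = !c v := by simp [flip]

omit [Fintype V] in
theorem flip_ne (c : V → Bool) {v w : V} (h : w ≠ v) : flip c v w = c w := by simp [flip, h]

omit [Fintype V] in
theorem flip_flip (c : V → Bool) (v : V) : flip (flip c v) v = c := by
  funext w
  by_cases h : w = v
  · simp [flip, h]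
  · simp [flip, h]

omit [Fintype V] in
theorem flip_comm (c : V → Bool) (v w : V) : flip (flip c v) w = flip (flip c w) v := by
  funext u
  unfold flip
  by_cases h1 : u = v
  · by_cases h2 : u = w
    · simp only [if_pos h1, if_pos h2]
    · simp only [if_pos h1, if_neg h2]
  · by_cases h2 : u = w
    · simp only [if_neg h1, if_pos h2]
    · simp only [if_neg h1, if_neg h2]

omit [DecidableEq V] in
theorem mem_bad (c : V → Bool) (v w : V) : w ∈ bad G c v ↔ G.Adj v w ∧ c w = c v := by
  simp [bad]

theorem bad_flip_self (c : V → Bool) (v : V) :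
    bad G (flip c v) v = (G.neighborFinset v) \ bad G c v := by
  ext w
  simp only [mem_bad, Finset.mem_sdiff, SimpleGraph.mem_neighborFinset]
  constructor
  · rintro ⟨h1, h2⟩
    refine ⟨h1, ?_⟩
    rintro ⟨_, h3⟩
    rw [flip_same, flip_ne c h1.ne', h3] at h2
    cases hv : c v <;> simp [hv] at h2
  · rintro ⟨h1, h2⟩
    refine ⟨h1, ?_⟩
    rw [flip_same, flip_ne c h1.ne']
    have h3 : c w ≠ c v := fun h => h2 ⟨h1, h⟩
    cases hw : c w <;> cases hv : c v <;> simp_all

theorem card_bad_flip_self (hG : G.IsRegularOfDegree 3) (c : V → Bool) (v : V) :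
    (bad G (flip c v) v).card + (bad G c v).card = 3 := by
  rw [bad_flip_self]
  have h1 : bad G c v ⊆ G.neighborFinset v := Finset.filter_subset _ _
  rw [Finset.card_sdiff_add_card_eq_card h1]
  exact hG v

theorem bad_flip_nonadj (c : V → Bool) {v u : V} (huv : u ≠ v) (h : ¬ G.Adj u v) :
    bad G (flip c v) u = bad G c u := by
  ext w
  simp only [mem_bad]
  constructor
  · rintro ⟨h1, h2⟩
    have hw : w ≠ v := by rintro rfl; exact h h1
    rw [flip_ne c huv, flip_ne c hw] at h2
    exact ⟨h1, h2⟩
  · rintro ⟨h1, h2⟩
    have hw : w ≠ v := by rintro rfl; exact h h1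
    rw [flip_ne c huv, flip_ne c hw]
    exact ⟨h1, h2⟩

theorem bad_flip_adj_same (c : V → Bool) {v u : V} (h : G.Adj u v) (hc : c u = c v) :
    bad G (flip c v) u = (bad G c u).erase v := by
  ext w
  simp only [mem_bad, Finset.mem_erase]
  have huv : u ≠ v := h.ne
  constructor
  · rintro ⟨h1, h2⟩
    have hw : w ≠ v := by
      rintro rfl
      rw [flip_ne c huv, flip_same, hc] at h2
      cases hv : c w <;> simp [hv] at h2
    rw [flip_ne c huv, flip_ne c hw] at h2
    exact ⟨hw, h1, h2⟩
  · rintro ⟨hw, h1, h2⟩
    rw [flip_ne c huv, flip_ne c hw]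
    exact ⟨h1, h2⟩

theorem bad_flip_adj_diff (c : V → Bool) {v u : V} (h : G.Adj u v) (hc : c u ≠ c v) :
    bad G (flip c v) u = insert v (bad G c u) := by
  ext w
  simp only [mem_bad, Finset.mem_insert]
  have huv : u ≠ v := h.ne
  constructor
  · rintro ⟨h1, h2⟩
    by_cases hw : w = v
    · exact Or.inl hw
    · rw [flip_ne c huv, flip_ne c hw] at h2
      exact Or.inr ⟨h1, h2⟩
  · rintro (rfl | ⟨h1, h2⟩)
    · refine ⟨h, ?_⟩
      rw [flip_ne c huv, flip_same]
      cases hv : c w <;> cases hu : c u <;> simp_all
    · by_cases hw : w = v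
      · subst hw
        exact absurd h2.symm hc
      · rw [flip_ne c huv, flip_ne c hw]
        exact ⟨h1, h2⟩

theorem card_bad_flip_adj_same (c : V → Bool) {v u : V} (h : G.Adj u v) (hc : c u = c v) :
    (bad G (flip c v) u).card + 1 = (bad G c u).card := by
  rw [bad_flip_adj_same G c h hc, Finset.card_erase_add_one]
  rw [mem_bad]
  exact ⟨h, hc.symm⟩

theorem card_bad_flip_adj_diff (c : V → Bool) {v u : V} (h : G.Adj u v) (hc : c u ≠ c v) :
    (bad G (flip c v) u).card = (bad G c u).card + 1 := by
  rw [bad_flip_adj_diff G c h hc, Finset.card_insert_of_notMem]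
  rw [mem_bad]
  rintro ⟨_, h2⟩
  exact hc h2.symm

theorem card_bad_flip_le (c : V → Bool) {v u : V} (huv : u ≠ v) (h : ¬ (G.Adj u v ∧ c u ≠ c v)) :
    (bad G (flip c v) u).card ≤ (bad G c u).card := by
  by_cases h1 : G.Adj u v
  · have h2 : c u = c v := by
      by_contra h3
      exact h ⟨h1, h3⟩
    have := card_bad_flip_adj_same G c h1 h2
    omega
  · rw [bad_flip_nonadj G c huv h1]

/-- Energy. -/
def En (c : V → Bool) : ℕ := ∑ v : V, (bad G c v).card

theorem En_flip (hG : G.IsRegularOfDegree 3) (c : V → Bool) (v : V) :
    (En G (flip c v) : ℤ) = En G c + 6 - 4 * (bad G c v).card := by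
  have h0 : ∀ u : V, ((bad G (flip c v) u).card : ℤ) = (bad G c u).card
      + (if u = v then 3 - 2 * ((bad G c v).card : ℤ) else
          if G.Adj v u then (if c u = c v then -1 else 1) else 0) := by
    intro u
    by_cases huv : u = v
    · subst huv
      have := card_bad_flip_self G hG c u
      simp only [if_true]
      omega
    · simp only [if_neg huv]
      by_cases h1 : G.Adj v u
      · by_cases h2 : c u = c v
        · have := card_bad_flip_adj_same G c h1.symm h2
          simp only [if_pos h1, if_pos h2]
          omega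
        · have := card_bad_flip_adj_diff G c h1.symm h2
          simp only [if_pos h1, if_neg h2]
          omega
      · have h2 : ¬ G.Adj u v := fun h => h1 h.symm
        rw [bad_flip_nonadj G c huv h2, if_neg h1, add_zero]
  have h1 : (∑ u : V, (if u = v then 3 - 2 * ((bad G c v).card : ℤ) else
          if G.Adj v u then (if c u = c v then -1 else 1) else 0))
      = 6 - 4 * (bad G c v).card := by
    have h2 : ∀ u : V, (if u = v then 3 - 2 * ((bad G c v).card : ℤ) else
          if G.Adj v u then (if c u = c v then -1 else 1) else 0)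
        = (if u = v then 3 - 2 * ((bad G c v).card : ℤ) else 0)
          + (if G.Adj v u then (if c u = c v then (-1 : ℤ) else 1) else 0) := by
      intro u
      by_cases huv : u = v
      · subst huv
        simp
      · simp [huv]
    rw [Finset.sum_congr rfl (fun u _ => h2 u), Finset.sum_add_distrib]
    rw [Finset.sum_ite_eq' Finset.univ v]
    rw [← Finset.sum_filter]
    have h3 : (Finset.univ.filter (fun u => G.Adj v u)) = G.neighborFinset v := by
      ext u; simp
    rw [h3]
    have h4 : ∀ u ∈ G.neighborFinset v, (if c u = c v then (-1 : ℤ) else 1)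
        = 1 - 2 * (if c u = c v then 1 else 0) := by
      intro u _
      split_ifs <;> norm_num
    rw [Finset.sum_congr rfl h4, Finset.sum_sub_distrib, ← Finset.mul_sum]
    have h5 : (∑ u ∈ G.neighborFinset v, (if c u = c v then (1 : ℤ) else 0))
        = (bad G c v).card := by
      rw [Finset.sum_boole]
      rfl
    rw [h5]
    have h6 : (G.neighborFinset v).card = 3 := hG v
    simp only [Finset.mem_univ, if_true, Finset.sum_const, h6, nsmul_eq_mul]
    push_cast
    ring
  have h7 : (En G (flip c v) : ℤ) = ∑ u : V, ((bad G (flip c v) u).card : ℤ) := by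
    simp [En]
  have h8 : (En G c : ℤ) = ∑ u : V, ((bad G c u).card : ℤ) := by
    simp [En]
  rw [h7, Finset.sum_congr rfl (fun u _ => h0 u), Finset.sum_add_distrib, h1, h8]
  ring

theorem En_flip_lt (hG : G.IsRegularOfDegree 3) (c : V → Bool) (v : V)
    (h : 2 ≤ (bad G c v).card) : En G (flip c v) < En G c := by
  have := En_flip G hG c v
  omega

theorem Reach.trans {c g h : V → Bool} (h1 : Reach G c g) (h2 : Reach G g h) : Reach G c h := by
  induction h1 with
  | refl c => exact h2
  | step c v g hv _ ih => exact Reach.step c v _ hv (ih h2)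

theorem Reach.one {c : V → Bool} {v : V} (h : 2 ≤ (bad G c v).card) : Reach G c (flip c v) :=
  Reach.step c v _ h (Reach.refl _)

theorem exists_valid (hG : G.IsRegularOfDegree 3) (c : V → Bool) :
    ∃ g, Reach G c g ∧ Valid G g := by
  induction hn : En G c using Nat.strong_induction_on generalizing c with
  | _ n ih =>
    by_cases hc : Valid G c
    · exact ⟨c, Reach.refl c, hc⟩
    · unfold Valid at hc
      push Not at hc
      obtain ⟨v, hv⟩ := hc
      have h1 := En_flip_lt G hG c v hv
      obtain ⟨g, hg1, hg2⟩ := ih (En G (flip c v)) (hn ▸ h1) (flip c v) rfl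
      exact ⟨g, Reach.step c v g hv hg1, hg2⟩

theorem Reach.eq_of_valid {c g : V → Bool} (h : Reach G c g) (hc : Valid G c) : g = c := by
  cases h with
  | refl => rfl
  | step _ v _ hv _ =>
    have := hc v
    omega

theorem cmp (hG : G.IsRegularOfDegree 3) (c : V → Bool) (v : V) :
    Reach G c (flip c v) ∨ Reach G (flip c v) c := by
  by_cases h : 2 ≤ (bad G c v).card
  · exact Or.inl (Reach.one G h)
  · right
    have h1 := card_bad_flip_self G hG c v
    have h2 : 2 ≤ (bad G (flip c v) v).card := by omega
    have h3 := Reach.one G h2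
    rwa [flip_flip] at h3

omit [DecidableEq V] in
theorem sgn_not (s : Bool) (c : V → Bool) : sgn (!s) c = - sgn s c := by
  unfold sgn
  rw [← Finset.sum_neg_distrib]
  apply Finset.sum_congr rfl
  intro v _
  cases hv : c v <;> cases s <;> simp

theorem sgn_flip (s : Bool) (c : V → Bool) (v : V) :
    sgn s (flip c v) = sgn s c + (if c v = s then -2 else 2) := by
  unfold sgn
  have h0 : ∀ u : V, (if flip c v u = s then (1 : ℤ) else -1)
      = (if c u = s then 1 else -1) + (if u = v then (if c v = s then -2 else 2) else 0) := by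
    intro u
    by_cases huv : u = v
    · subst huv
      rw [flip_same]
      cases hv : c u <;> cases s <;> simp
    · rw [flip_ne c huv]
      simp [huv]
  rw [Finset.sum_congr rfl (fun u _ => h0 u), Finset.sum_add_distrib, Finset.sum_ite_eq']
  simp

end Pool.Agent.IVT
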