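import Pool.Agent.IVT.Crit

set_option autoImplicit false

namespace Pool.Agent.IVT

open Finset

variable {V : Type} [Fintype V] [DecidableEq V] (G : SimpleGraph V) [DecidableRel G.Adj]

/-- In a valid colouring every monochromatic component has at most two vertices. -/
theorem comp_le_two (c : V → Bool) (hc : Valid G c) (v : V) :
    {w : V | (G ⊓ SimpleGraph.fromRel (fun a b : V => c a = c b)).Reachable v w}.ncard ≤ 2 := by
  classical
  set H := G ⊓ SimpleGraph.fromRel (fun a b : V => c a = c b) with hH
  have hHadj : ∀ a b, H.Adj a b ↔ b ∈ bad G c a := by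
    intro a b
    rw [hH, mem_bad]
    simp only [SimpleGraph.inf_adj, SimpleGraph.fromRel_adj]
    constructor
    · rintro ⟨h1, _, h2 | h2⟩
      · exact ⟨h1, h2.symm⟩
      · exact ⟨h1, h2⟩
    · rintro ⟨h1, h2⟩
      exact ⟨h1, h1.ne, Or.inl h2.symm⟩
  have huniq : ∀ a b b', H.Adj a b → H.Adj a b' → b = b' := by
    intro a b b' h1 h2
    exact Finset.card_le_one.1 (hc a) b ((hHadj a b).1 h1) b' ((hHadj a b').1 h2)
  have hkey : ∀ w, H.Reachable v w → w = v ∨ H.Adj v w := by
    rintro w ⟨p⟩
    induction p with
    | nil => exact Or.inl rfl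
    | @cons a b d hab _ ih =>
      rcases ih with rfl | h
      · exact Or.inr hab
      · exact Or.inl (huniq b d a h hab.symm)
  have hsub : {w : V | H.Reachable v w} ⊆ ((insert v (bad G c v) : Finset V) : Set V) := by
    intro w hw
    rcases hkey w hw with rfl | h
    · simp
    · have := (hHadj v w).1 h
      simp [this]
  refine (Set.ncard_le_ncard hsub (Finset.finite_toSet _)).trans ?_
  rw [Set.ncard_coe_finset]
  refine (Finset.card_insert_le _ _).trans ?_
  have := hc v
  omega

omit [DecidableEq V] in
theorem sgn_true_eq (c : V → Bool) :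
    sgn true c = ((Finset.univ.filter (fun v => c v = true)).card : ℤ)
      - ((Finset.univ.filter (fun v => c v = false)).card : ℤ) := by
  have h1 : ∀ v : V, (if c v = true then (1 : ℤ) else -1)
      = (if c v = true then 1 else 0) - (if c v = false then 1 else 0) := by
    intro v
    cases c v <;> simp
  unfold sgn
  rw [Finset.sum_congr rfl (fun v _ => h1 v), Finset.sum_sub_distrib, Finset.sum_boole,
    Finset.sum_boole]

end Pool.Agent.IVT
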