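import Pool.Agent.IVT.Pot

set_option autoImplicit false

namespace Pool.Agent.IVT

open Finset

variable {V : Type} [Fintype V] [DecidableEq V] (G : SimpleGraph V) [DecidableRel G.Adj]

/-- A colouring of least energy from which valid colourings of both labels are reached. -/
structure Crit (k : ℤ) (c : V → Bool) : Prop where
  pos : Pos G k c
  neg : Neg G k c
  min : ∀ d, En G d < En G c → ¬ (Pos G k d ∧ Neg G k d)

theorem exists_crit (hG : G.IsRegularOfDegree 3) {k : ℤ} (hk0 : 0 < k)
    (hk : ∀ g, Valid G g → k ≤ sgn true g ∨ sgn true g ≤ -k) : ∃ c, Crit G k c := by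
  classical
  obtain ⟨c0, h1, h2⟩ := exists_ambiguous G hG hk0 hk
  have hex : ∃ n, ∃ c, En G c = n ∧ Pos G k c ∧ Neg G k c := ⟨_, c0, rfl, h1, h2⟩
  obtain ⟨c, hc1, hc2, hc3⟩ := Nat.find_spec hex
  refine ⟨c, hc2, hc3, ?_⟩
  intro d hd hcon
  rw [hc1] at hd
  exact Nat.find_min hex hd ⟨d, rfl, hcon⟩

theorem Crit.not_valid {k : ℤ} (hk0 : 0 < k) {c : V → Bool} (hc : Crit G k c) : ¬ Valid G c := by
  intro hv
  obtain ⟨g, h1, _, h3⟩ := hc.pos
  obtain ⟨g', h4, _, h6⟩ := hc.neg
  have h7 : g = c := h1.eq_of_valid G hv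
  have h8 : g' = c := h4.eq_of_valid G hv
  rw [h7] at h3
  rw [h8] at h6
  omega

theorem Crit.exists_pos {k : ℤ} (hk0 : 0 < k) {c : V → Bool} (hc : Crit G k c) :
    ∃ p, 2 ≤ (bad G c p).card ∧ Pos G k (flip c p) := by
  obtain ⟨g, h1, h2, h3⟩ := hc.pos
  cases h1 with
  | refl => exact absurd h2 (hc.not_valid G hk0)
  | step _ v _ hv h4 => exact ⟨v, hv, g, h4, h2, h3⟩

theorem Crit.exists_neg {k : ℤ} (hk0 : 0 < k) {c : V → Bool} (hc : Crit G k c) :
    ∃ p, 2 ≤ (bad G c p).card ∧ Neg G k (flip c p) := by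
  obtain ⟨g, h1, h2, h3⟩ := hc.neg
  cases h1 with
  | refl => exact absurd h2 (hc.not_valid G hk0)
  | step _ v _ hv h4 => exact ⟨v, hv, g, h4, h2, h3⟩

/-- Two flips leading to different labels happen at adjacent vertices of the same colour, both with
exactly two neighbours of their colour. -/
theorem Crit.adj (hG : G.IsRegularOfDegree 3) {k : ℤ}
    (hk : ∀ g, Valid G g → k ≤ sgn true g ∨ sgn true g ≤ -k)
    {c : V → Bool} (hc : Crit G k c) {p q : V}
    (hp : 2 ≤ (bad G c p).card) (hq : 2 ≤ (bad G c q).card)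
    (hP : Pos G k (flip c p)) (hN : Neg G k (flip c q)) :
    G.Adj p q ∧ c p = c q ∧ (bad G c p).card = 2 ∧ (bad G c q).card = 2 := by
  have hAp := hc.min _ (En_flip_lt G hG c p hp)
  have hAq := hc.min _ (En_flip_lt G hG c q hq)
  have hpq : p ≠ q := by
    rintro rfl
    exact hAp ⟨hP, hN⟩
  -- the common flip
  have hcomm : flip (flip c p) q = flip (flip c q) p := flip_comm c p q
  have h1 : ¬ 2 ≤ (bad G (flip c p) q).card := by
    intro h
    have hr : Reach G (flip c p) (flip (flip c p) q) := Reach.one G h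
    have hm : Pos G k (flip (flip c p) q) := by
      rcases pos_or_neg G hG hk (flip (flip c p) q) with h2 | h2
      · exact h2
      · exact absurd ⟨hP, h2.of_reach G hr⟩ hAp
    rw [hcomm] at hm hr
    rcases cmp G hG (flip c q) p with h2 | h2
    · exact hAq ⟨hm.of_reach G h2, hN⟩
    · exact hAp ⟨hP, (hN.of_reach G h2).of_reach G hr⟩
  have h2 : ¬ 2 ≤ (bad G (flip c q) p).card := by
    intro h
    have hr : Reach G (flip c q) (flip (flip c q) p) := Reach.one G h
    have hm : Neg G k (flip (flip c q) p) := by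
      rcases pos_or_neg G hG hk (flip (flip c q) p) with h2 | h2
      · exact absurd ⟨h2.of_reach G hr, hN⟩ hAq
      · exact h2
    rw [← hcomm] at hm hr
    rcases cmp G hG (flip c p) q with h2 | h2
    · exact hAp ⟨hP, hm.of_reach G h2⟩
    · exact hAq ⟨(hP.of_reach G h2).of_reach G hr, hN⟩
  have hadj : G.Adj p q := by
    by_contra hcon
    rw [bad_flip_nonadj G c hpq.symm (fun h => hcon h.symm)] at h1
    exact h1 hq
  have hcol : c p = c q := by
    by_contra hcon
    have h3 := card_bad_flip_adj_diff G c hadj.symm (fun h => hcon h.symm)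
    omega
  have h3 := card_bad_flip_adj_same G c hadj.symm hcol.symm
  have h4 := card_bad_flip_adj_same G c hadj hcol
  exact ⟨hadj, hcol, by omega, by omega⟩

/-- The range of the imbalance after the flip of `p`. -/
theorem range (hG : G.IsRegularOfDegree 3) (c : V → Bool) (T1 T2 : V → Prop)
    {p q : V} (hp : T1 p) (hq : T2 q)
    (hcover : ∀ v, 2 ≤ (bad G c v).card → T1 v ∨ T2 v)
    (hadj : ∀ u v, T1 u → T2 v →
      G.Adj u v ∧ c u = c v ∧ (bad G c u).card = 2 ∧ (bad G c v).card = 2)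
    {g : V → Bool} (hg : Reach G (flip c p) g) :
    sgn (c p) c - 4 ≤ sgn (c p) g ∧ sgn (c p) g ≤ sgn (c p) c := by
  have hpq := hadj p q hp hq
  have hbad2 : ∀ v, 2 ≤ (bad G c v).card → (bad G c v).card = 2 ∧ c v = c p := by
    intro v hv
    rcases hcover v hv with h | h
    · have := hadj v q h hq
      exact ⟨this.2.2.1, this.2.1.trans hpq.2.1.symm⟩
    · have := hadj p v hp h
      exact ⟨this.2.2.2, this.2.1.symm⟩
  constructor
  · have h1 := pot_reach G hG (!(c p)) hg
    rw [sgn_not, sgn_not, Bool.not_not, sgn_flip, if_pos rfl] at h1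
    have hsub : Fl G (c p) (flip c p) ⊆ (bad G c q).erase p := by
      intro v hv
      simp only [Fl, Finset.mem_filter, Finset.mem_univ, true_and] at hv
      obtain ⟨hv1, hv2⟩ := hv
      have hvp : v ≠ p := by
        rintro rfl
        rw [flip_same] at hv2
        cases hcv : c v <;> simp [hcv] at hv2
      rw [flip_ne c hvp] at hv2
      rw [Finset.mem_erase]
      refine ⟨hvp, ?_⟩
      have hnadj : ¬ G.Adj v p := by
        intro hA
        have h3 := card_bad_flip_adj_same G c hA hv2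
        have h4 := (hbad2 v (by omega)).1
        omega
      rw [bad_flip_nonadj G c hvp hnadj] at hv1
      rcases hcover v hv1 with h | h
      · have h5 := hadj v q h hq
        rw [mem_bad]
        exact ⟨h5.1.symm, h5.2.1⟩
      · exact absurd (hadj p v hp h).1.symm hnadj
    have hmem : p ∈ bad G c q := by
      rw [mem_bad]
      exact ⟨hpq.1.symm, hpq.2.1⟩
    have h3 := Finset.card_le_card hsub
    have h4 := Finset.card_erase_add_one hmem
    have h5 := hpq.2.2.2
    have h6 : ((Fl G (c p) (flip c p)).card : ℤ) ≤ 1 := by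
      have : (Fl G (c p) (flip c p)).card ≤ 1 := by omega
      exact_mod_cast this
    omega
  · have hr : Reach G c g := Reach.step c p g (by rw [hpq.2.2.1]) hg
    have h1 := pot_reach G hG (c p) hr
    have h2 : Fl G (!(c p)) c = ∅ := by
      rw [Finset.eq_empty_iff_forall_notMem]
      intro v hv
      simp only [Fl, Finset.mem_filter, Finset.mem_univ, true_and] at hv
      have h3 := (hbad2 v hv.1).2
      rw [hv.2] at h3
      cases hcp : c p <;> simp [hcp] at h3
    rw [h2] at h1
    simpa using h1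

/-- The ranges on both sides of a critical colouring. -/
theorem Crit.ranges (hG : G.IsRegularOfDegree 3) {k : ℤ} (hk0 : 0 < k)
    (hk : ∀ g, Valid G g → k ≤ sgn true g ∨ sgn true g ≤ -k)
    {c : V → Bool} (hc : Crit G k c) : k ≤ 2 := by
  obtain ⟨p, hp, hP⟩ := hc.exists_pos G hk0
  obtain ⟨q, hq, hN⟩ := hc.exists_neg G hk0
  have hpq := hc.adj G hG hk hp hq hP hN
  set T1 : V → Prop := fun v => 2 ≤ (bad G c v).card ∧ Pos G k (flip c v) with hT1
  set T2 : V → Prop := fun v => 2 ≤ (bad G c v).card ∧ Neg G k (flip c v) with hT2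
  have hcover : ∀ v, 2 ≤ (bad G c v).card → T1 v ∨ T2 v := by
    intro v hv
    rcases pos_or_neg G hG hk (flip c v) with h | h
    · exact Or.inl ⟨hv, h⟩
    · exact Or.inr ⟨hv, h⟩
  have hadj : ∀ u v, T1 u → T2 v →
      G.Adj u v ∧ c u = c v ∧ (bad G c u).card = 2 ∧ (bad G c v).card = 2 := by
    intro u v hu hv
    exact hc.adj G hG hk hu.1 hv.1 hu.2 hv.2
  have hadj' : ∀ u v, T2 u → T1 v →
      G.Adj u v ∧ c u = c v ∧ (bad G c u).card = 2 ∧ (bad G c v).card = 2 := by
    intro u v hu hv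
    have := hadj v u hv hu
    exact ⟨this.1.symm, this.2.1.symm, this.2.2.2, this.2.2.1⟩
  obtain ⟨g, hg1, hg2, hg3⟩ := hP
  obtain ⟨g', hg1', hg2', hg3'⟩ := hN
  have hr1 := range G hG c T1 T2 (p := p) (q := q) ⟨hp, ⟨g, hg1, hg2, hg3⟩⟩
    ⟨hq, ⟨g', hg1', hg2', hg3'⟩⟩ hcover hadj hg1
  have hr2 := range G hG c T2 T1 (p := q) (q := p) ⟨hq, ⟨g', hg1', hg2', hg3'⟩⟩
    ⟨hp, ⟨g, hg1, hg2, hg3⟩⟩ (fun v hv => (hcover v hv).symm) hadj' hg1'
  rw [hpq.2.1] at hr1
  cases hcq : c q
  · rw [hcq] at hr1 hr2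
    have e1 : sgn false g = - sgn true g := sgn_not true g
    have e2 : sgn false g' = - sgn true g' := sgn_not true g'
    rw [e1] at hr1
    rw [e2] at hr2
    omega
  · rw [hcq] at hr1 hr2
    omega

/-- Every cubic graph has a valid colouring of imbalance at most two. -/
theorem exists_valid_le_two (hG : G.IsRegularOfDegree 3) :
    ∃ c : V → Bool, Valid G c ∧ |sgn true c| ≤ 2 := by
  by_contra hcon
  push Not at hcon
  have hk : ∀ g, Valid G g → (3 : ℤ) ≤ sgn true g ∨ sgn true g ≤ -3 := by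
    intro g hg
    have h1 := hcon g hg
    rcases le_abs.1 (le_of_lt h1) with h2 | h2
    · rcases abs_cases (sgn true g) with h3 | h3 <;> omega
    · rcases abs_cases (sgn true g) with h3 | h3 <;> omega
  obtain ⟨c, hc⟩ := exists_crit G hG (by norm_num) hk
  have := hc.ranges G hG (by norm_num) hk
  omega

end Pool.Agent.IVT
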