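import Pool.Agent.IVT.Basic

set_option autoImplicit false

namespace Pool.Agent.IVT

open Finset

variable {V : Type} [Fintype V] [DecidableEq V] (G : SimpleGraph V) [DecidableRel G.Adj]

/-- One step of the potential: `sgn s + 2 * #(flippable vertices of the other colour)` does not
increase. -/
theorem pot_step (hG : G.IsRegularOfDegree 3) (s : Bool) (c : V → Bool) (v : V)
    (hv : 2 ≤ (bad G c v).card) :
    sgn s (flip c v) + 2 * ((Fl G (!s) (flip c v)).card : ℤ)
      ≤ sgn s c + 2 * ((Fl G (!s) c).card : ℤ) := by
  have hself := card_bad_flip_self G hG c v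
  rw [sgn_flip]
  by_cases hs : c v = s
  · rw [if_pos hs]
    -- new flippable vertices of colour `!s` are good neighbours of `v`
    have hsub : Fl G (!s) (flip c v) ⊆ Fl G (!s) c ∪ (G.neighborFinset v \ bad G c v) := by
      intro u hu
      simp only [Fl, Finset.mem_filter, Finset.mem_univ, true_and] at hu
      obtain ⟨hu1, hu2⟩ := hu
      have huv : u ≠ v := by
        rintro rfl
        omega
      rw [flip_ne c huv] at hu2
      by_cases hadj : G.Adj u v
      · refine Finset.mem_union_right _ ?_
        rw [Finset.mem_sdiff, SimpleGraph.mem_neighborFinset, mem_bad]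
        refine ⟨hadj.symm, ?_⟩
        rintro ⟨_, h3⟩
        rw [hu2, hs] at h3
        cases s <;> simp at h3
      · refine Finset.mem_union_left _ ?_
        rw [bad_flip_nonadj G c huv hadj] at hu1
        simp only [Fl, Finset.mem_filter, Finset.mem_univ, true_and]
        exact ⟨hu1, hu2⟩
    have h1 : (Fl G (!s) (flip c v)).card ≤ (Fl G (!s) c).card + 1 := by
      refine (Finset.card_le_card hsub).trans ((Finset.card_union_le _ _).trans ?_)
      have h2 : bad G c v ⊆ G.neighborFinset v := Finset.filter_subset _ _
      have h3 := Finset.card_sdiff_add_card_eq_card h2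
      have h4 : (G.neighborFinset v).card = 3 := hG v
      omega
    omega
  · rw [if_neg hs]
    have hvs : c v = !s := by
      cases hcv : c v <;> cases s <;> simp_all
    have hsub : Fl G (!s) (flip c v) ⊆ (Fl G (!s) c).erase v := by
      intro u hu
      simp only [Fl, Finset.mem_filter, Finset.mem_univ, true_and] at hu
      obtain ⟨hu1, hu2⟩ := hu
      have huv : u ≠ v := by
        rintro rfl
        omega
      rw [flip_ne c huv] at hu2
      rw [Finset.mem_erase]
      refine ⟨huv, ?_⟩
      simp only [Fl, Finset.mem_filter, Finset.mem_univ, true_and]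
      refine ⟨?_, hu2⟩
      refine hu1.trans (card_bad_flip_le G c huv ?_)
      rintro ⟨_, h4⟩
      exact h4 (hu2.trans hvs.symm)
    have hmem : v ∈ Fl G (!s) c := by
      simp only [Fl, Finset.mem_filter, Finset.mem_univ, true_and]
      exact ⟨hv, hvs⟩
    have h1 := Finset.card_le_card hsub
    have h2 := Finset.card_erase_add_one hmem
    omega

theorem pot_reach (hG : G.IsRegularOfDegree 3) (s : Bool) {c g : V → Bool} (h : Reach G c g) :
    sgn s g ≤ sgn s c + 2 * ((Fl G (!s) c).card : ℤ) := by
  have key : sgn s g + 2 * ((Fl G (!s) g).card : ℤ) ≤ sgn s c + 2 * ((Fl G (!s) c).card : ℤ) := by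
    induction h with
    | refl c => exact le_refl _
    | step c v g hv _ ih => exact ih.trans (pot_step G hG s c v hv)
  have : (0 : ℤ) ≤ ((Fl G (!s) g).card : ℤ) := Int.natCast_nonneg _
  omega

/-- Reaching a valid colouring with `sgn true ≥ k`. -/
def Pos (k : ℤ) (c : V → Bool) : Prop := ∃ g, Reach G c g ∧ Valid G g ∧ k ≤ sgn true g

/-- Reaching a valid colouring with `sgn true ≤ -k`. -/
def Neg (k : ℤ) (c : V → Bool) : Prop := ∃ g, Reach G c g ∧ Valid G g ∧ sgn true g ≤ -k

theorem Pos.of_reach {k : ℤ} {c d : V → Bool} (h : Reach G c d) (hd : Pos G k d) : Pos G k c := by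
  obtain ⟨g, h1, h2⟩ := hd
  exact ⟨g, h.trans G h1, h2⟩

theorem Neg.of_reach {k : ℤ} {c d : V → Bool} (h : Reach G c d) (hd : Neg G k d) : Neg G k c := by
  obtain ⟨g, h1, h2⟩ := hd
  exact ⟨g, h.trans G h1, h2⟩

theorem pos_or_neg (hG : G.IsRegularOfDegree 3) {k : ℤ}
    (hk : ∀ g, Valid G g → k ≤ sgn true g ∨ sgn true g ≤ -k) (c : V → Bool) :
    Pos G k c ∨ Neg G k c := by
  obtain ⟨g, h1, h2⟩ := exists_valid G hG c
  rcases hk g h2 with h | h
  · exact Or.inl ⟨g, h1, h2, h⟩
  · exact Or.inr ⟨g, h1, h2, h⟩

/-- If no colouring is ambiguous, the label is invariant under flips. -/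
theorem pos_flip (hG : G.IsRegularOfDegree 3) {k : ℤ}
    (hk : ∀ g, Valid G g → k ≤ sgn true g ∨ sgn true g ≤ -k)
    (hA : ∀ c, ¬ (Pos G k c ∧ Neg G k c)) (c : V → Bool) (v : V) (h : Pos G k c) :
    Pos G k (flip c v) := by
  rcases cmp G hG c v with h1 | h1
  · rcases pos_or_neg G hG hk (flip c v) with h2 | h2
    · exact h2
    · exact absurd ⟨h, h2.of_reach G h1⟩ (hA c)
  · exact h.of_reach G h1

theorem exists_ambiguous (hG : G.IsRegularOfDegree 3) {k : ℤ} (hk0 : 0 < k)
    (hk : ∀ g, Valid G g → k ≤ sgn true g ∨ sgn true g ≤ -k) :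
    ∃ c, Pos G k c ∧ Neg G k c := by
  by_contra hcon
  push Not at hcon
  have hA : ∀ c, ¬ (Pos G k c ∧ Neg G k c) := fun c h => hcon c h.1 h.2
  -- the label is constant
  have hconst : ∀ (S : Finset V) (c : V → Bool), Pos G k c →
      Pos G k (fun u => if u ∈ S then !c u else c u) := by
    intro S
    induction S using Finset.induction_on with
    | empty =>
      intro c hc
      simpa using hc
    | insert v S hv ih =>
      intro c hc
      have h1 := pos_flip G hG hk hA _ v (ih c hc)
      have h2 : flip (fun u => if u ∈ S then !c u else c u) v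
          = (fun u => if u ∈ insert v S then !c u else c u) := by
        funext u
        by_cases huv : u = v
        · subst huv
          rw [flip_same]
          simp [hv]
        · rw [flip_ne _ huv]
          simp [huv]
      rwa [h2] at h1
  have hall : ∀ c : V → Bool, Pos G k c → Pos G k (fun u => !c u) := by
    intro c hc
    have := hconst Finset.univ c hc
    simpa using this
  -- a valid colouring and its negative
  obtain ⟨g, _, hg⟩ := exists_valid G hG (fun _ : V => true)
  have hneg : Valid G (fun u => !g u) := by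
    intro v
    have h1 : bad G (fun u => !g u) v = bad G g v := by
      ext w
      simp [mem_bad]
    rw [h1]
    exact hg v
  have hsneg : ∀ g : V → Bool, sgn true (fun u => !g u) = - sgn true g := by
    intro g
    unfold sgn
    rw [← Finset.sum_neg_distrib]
    apply Finset.sum_congr rfl
    intro v _
    cases hv : g v <;> simp [hv]
  rcases hk g hg with h | h
  · have h1 : Pos G k g := ⟨g, Reach.refl g, hg, h⟩
    obtain ⟨g', h2, h3, h4⟩ := hall g h1
    have h5 := h2.eq_of_valid G hneg
    rw [h5, hsneg] at h4
    omega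
  · have h1 : Pos G k (fun u => !g u) := by
      refine ⟨_, Reach.refl _, hneg, ?_⟩
      rw [hsneg]
      omega
    obtain ⟨g', h2, h3, h4⟩ := hall _ h1
    simp only [Bool.not_not] at h2
    have h5 : g' = g := h2.eq_of_valid G hg
    rw [h5] at h4
    omega

end Pool.Agent.IVT
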